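import Pool.Agent.Y212.Pk.Inv

set_option autoImplicit false
set_option linter.unusedSectionVars false

open MvPolynomial Matrix AlgebraicGeometry CategoryTheory Pool.Agent.H920R2

universe u

namespace Pool.Agent.Y212.Pk

open Pool.Agent.Y212.Fk

variable {k : Type u} [Field k] {n m : ℕ} (lv : Fin n → ℕ)

lemma det_mem_sub {K : Type*} [Field K] (S : Subring K) {ι : Type*} [Fintype ι] [DecidableEq ι]
    (M : Matrix ι ι K) (h : ∀ i j, M i j ∈ S) : M.det ∈ S := by
  rw [Matrix.det_apply]
  refine Subring.sum_mem _ fun σ _ => ?_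
  rw [Units.smul_def]
  exact S.zsmul_mem (Subring.prod_mem _ fun i _ => h _ _) _

lemma dK_ne_of_inj (L : ℕ) (e : Fin n → Fin m) (he : Function.Injective e) :
    dK k lv L e ≠ 0 := by
  classical
  rw [dK_eq, Ne, FaithfulSMul.algebraMap_eq_zero_iff]
  intro h
  let φ : MvPolynomial (Fin n × Fin m) k →+* k :=
    eval fun u => if e u.1 = u.2 then 1 else 0
  have h1 : φ (mn k lv L e) = 1 := by
    rw [mn, RingHom.map_det]
    have h2 : φ.mapMatrix ((gen k n m).submatrix (Subtype.val : Rw lv L → Fin n)
        fun l => e l.1) = 1 := by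
      ext1 i j
      simp [φ, gen, Matrix.one_apply, he.eq_iff, Subtype.ext_iff]
    rw [h2, Matrix.det_one]
  rw [h, map_zero] at h1
  exact zero_ne_one h1

section val

variable (V : ValuationSubring (FF k n m))

lemma exists_step (L : ℕ) (e : Fin n → Fin m) (hinj : Function.Injective e)
    (hgood : ∀ i, L < lv i → ∀ e', dK k lv (lv i) e' / dK k lv (lv i) e ∈ V) :
    ∃ e'' : Fin n → Fin m, Function.Injective e'' ∧
      ∀ i, L ≤ lv i → ∀ e', dK k lv (lv i) e' / dK k lv (lv i) e'' ∈ V := by
  classical
  obtain ⟨e'', hmem, hmax⟩ := Finset.exists_max_image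
    (Finset.univ.filter fun f : Fin n → Fin m =>
      Function.Injective f ∧ ∀ l, L < lv l → f l = e l)
    (fun f => V.valuation (dK k lv L f))
    ⟨e, Finset.mem_filter.2 ⟨Finset.mem_univ _, hinj, fun _ _ => rfl⟩⟩
  obtain ⟨-, hinj2, hagree⟩ := Finset.mem_filter.1 hmem
  have hne : ∀ L', dK k lv L' e'' ≠ 0 := fun L' => dK_ne_of_inj lv L' e'' hinj2
  have hbig : ∀ i, L < lv i → ∀ e', dK k lv (lv i) e' / dK k lv (lv i) e'' ∈ V := by
    intro i hi e'
    have h1 : dK k lv (lv i) e'' = dK k lv (lv i) e :=
      dK_congr lv _ _ _ fun l hl => hagree l (lt_of_lt_of_le hi hl)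
    rw [h1]
    exact hgood i hi e'
  refine ⟨e'', hinj2, fun i hi e' => ?_⟩
  rcases hi.lt_or_eq with hi | hi
  · exact hbig i hi e'
  · rw [← hi]
    have hU : ∀ l j, L ≤ lv l → UU k lv e'' l j ∈ V := by
      intro l j hl
      by_cases hq : Q lv e'' (l, j)
      · obtain ⟨l', hl', hj⟩ := hq
        change lv l ≤ lv l' at hl'
        change e'' l' = j at hj
        rw [← hj, UU_e lv e'' (fun i => hne _) _ _ hl']
        split_ifs
        · exact V.one_mem
        · exact V.zero_mem
      · rw [UU_eq lv e'' l j (hne _)]
        rcases hl.lt_or_eq with hl | hl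
        · exact hbig l hl _
        · rw [← hl]
          have h1 : dK k lv L (Function.update e'' l j) =
              dK k lv L (Equiv.swap (e'' l) j ∘ e'') := by
            apply dK_congr
            intro x hx
            by_cases hxl : x = l
            · subst hxl
              simp
            · rw [Function.update_of_ne hxl, Function.comp_apply,
                Equiv.swap_apply_of_ne_of_ne (fun h => hxl (hinj2 h))]
              intro h
              apply hq
              exact ⟨x, by change lv l ≤ lv x; omega, h⟩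
          rw [h1, ← ValuationSubring.valuation_le_one_iff, map_div₀]
          refine div_le_one_of_le₀ (hmax _ ?_) zero_le
          refine Finset.mem_filter.2 ⟨Finset.mem_univ _,
            (Equiv.injective _).comp hinj2, fun x hx => ?_⟩
          have hxl : x ≠ l := by
            rintro rfl
            omega
          rw [Function.comp_apply, Equiv.swap_apply_of_ne_of_ne (fun h => hxl (hinj2 h)),
            hagree x hx]
          intro h
          apply hq
          exact ⟨x, by change lv l ≤ lv x; omega, h⟩
    rw [dK_div lv e'' (fun i => hne _) L e', mul_div_cancel_left₀ _ (hne _)]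
    exact det_mem_sub V.toSubring _ fun a b => hU _ _ a.2

lemma exists_good (hnm : n ≤ m) : ∃ e : Fin n → Fin m, Function.Injective e ∧
    ∀ i, ∀ e', dK k lv (lv i) e' / dK k lv (lv i) e ∈ V := by
  have hM : ∃ M, ∀ i, lv i < M := by
    refine ⟨(Finset.univ.sup lv) + 1, fun i => ?_⟩
    have := Finset.le_sup (f := lv) (Finset.mem_univ i)
    omega
  obtain ⟨M, hM⟩ := hM
  have key : ∀ N, N ≤ M → ∃ e : Fin n → Fin m, Function.Injective e ∧
      ∀ i, M - N ≤ lv i → ∀ e', dK k lv (lv i) e' / dK k lv (lv i) e ∈ V := by
    intro N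
    induction N with
    | zero =>
      intro _
      refine ⟨Fin.castLE hnm, Fin.castLE_injective hnm, fun i hi => ?_⟩
      have := hM i
      omega
    | succ N ih =>
      intro hN
      obtain ⟨e, he, hgood⟩ := ih (by omega)
      exact exists_step lv V (M - (N + 1)) e he (fun i hi => hgood i (by omega))
  obtain ⟨e, he, hgood⟩ := key M le_rfl
  exact ⟨e, he, fun i => hgood i (by omega)⟩

end val

section fix

variable (e : Fin n → Fin m) (he : ∀ i, dK k lv (lv i) e ≠ 0)

include he

lemma det_UU_id : ((UU k lv e).submatrix id e).det = 1 := by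
  rw [← det_SS_mul lv e he, ← Matrix.det_mul]
  congr 1

lemma TT_eq (i l : Fin n) : (SS k lv e)⁻¹ i l =
    ∑ j, XK k n m i (e j) * ((UU k lv e).submatrix id e).adjugate j l := by
  have h1 : (SS k lv e)⁻¹ * (UU k lv e).submatrix id e = (XK k n m).submatrix id e := by
    ext1 a b
    rw [Matrix.mul_apply]
    exact TT_mul_apply lv e he a (e b)
  have h2 : (SS k lv e)⁻¹ = (XK k n m).submatrix id e *
      ((UU k lv e).submatrix id e).adjugate := by
    rw [← h1, Matrix.mul_assoc, Matrix.mul_adjugate, det_UU_id lv e he, one_smul,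
      Matrix.mul_one]
  have h3 := congrFun (congrFun h2 i) l
  rw [Matrix.mul_apply] at h3
  exact h3

end fix

variable {p : ℕ} [hp : Fact p.Prime] [CharP k p] (r : Fin n → ℕ) (R : ℕ) (hR : ∀ i, r i ≤ R)

include hp

/-- The generators of the ideal. -/
noncomputable def zP (k : Type u) [Field k] [CharP k p] (n m : ℕ) (lv r : Fin n → ℕ) (R : ℕ)
    (hR : ∀ i, r i ≤ R) (t : Fin n → Fin (p ^ R) → Fin n → Fin m) :
    InvP k n m lv fun i => p ^ r i :=
  ⟨∏ i, ∏ a, mn k lv (lv i) (t i a), prod_mn_mem lv r R hR t⟩

theorem hasResolutionP (hnm : n ≤ m) :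
    HasResolution (X := Spec (CommRingCat.of (InvP k n m lv fun i => p ^ r i)))
      (Spec.map (CommRingCat.ofHom (algebraMap k (InvP k n m lv fun i => p ^ r i)))) := by
  classical
  obtain ⟨R, hR⟩ : ∃ R, ∀ i, r i ≤ R :=
    ⟨Finset.univ.sup r, fun i => Finset.le_sup (f := r) (Finset.mem_univ i)⟩
  have hq : 0 < p ^ R := pow_pos hp.out.pos R
  have hch : CharP (FF k n m) p := charP_of_injective_algebraMap (R := k)
    (FaithfulSMul.algebraMap_injective k (FF k n m)) p
  let g : (InvP k n m lv fun i => p ^ r i) →ₐ[k] FF k n m :=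
    (IsScalarTower.toAlgHom k (MvPolynomial (Fin n × Fin m) k) (FF k n m)).comp
      (InvP k n m lv fun i => p ^ r i).val
  have hg : Function.Injective g := by
    intro a b hab
    apply Subtype.ext
    exact IsFractionRing.injective (MvPolynomial (Fin n × Fin m) k) (FF k n m) hab
  have hgz : ∀ t, g (zP k n m lv r R hR t) = ∏ i, ∏ a, dK k lv (lv i) (t i a) := by
    intro t
    change algebraMap _ (FF k n m) (∏ i, ∏ a, mn k lv (lv i) (t i a)) = _
    rw [map_prod]
    apply Finset.prod_congr rfl
    intro i _
    rw [map_prod]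
    apply Finset.prod_congr rfl
    intro a _
    rw [dK_eq]
  have hz0 : ∀ e : Fin n → Fin m, zP k n m lv r R hR (fun _ _ => e) ≠ 0 ↔
      ∀ i, dK k lv (lv i) e ≠ 0 := by
    intro e
    rw [← map_ne_zero_iff g hg, hgz, Finset.prod_ne_zero_iff]
    constructor
    · intro h i
      have h1 := h i (Finset.mem_univ _)
      rw [Finset.prod_const, Finset.card_univ, Fintype.card_fin] at h1
      exact fun h2 => h1 (by rw [h2, zero_pow hq.ne'])
    · intro h i _
      rw [Finset.prod_const, Finset.card_univ, Fintype.card_fin]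
      exact pow_ne_zero _ (h i)
  have hdiv : ∀ (t : Fin n → Fin (p ^ R) → Fin n → Fin m) (e : Fin n → Fin m),
      g (zP k n m lv r R hR t) / g (zP k n m lv r R hR fun _ _ => e) =
        ∏ i, ∏ a, (dK k lv (lv i) (t i a) / dK k lv (lv i) e) := by
    intro t e
    rw [hgz, hgz, ← Finset.prod_div_distrib]
    apply Finset.prod_congr rfl
    intro i _
    rw [Finset.prod_div_distrib]
  refine hasResolution_of_charts g hg (zP k n m lv r R hR) (Set.range fun e _ _ => e) ?_ ?_
  · intro V hV
    obtain ⟨e, he, hgood⟩ := exists_good lv V hnm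
    refine ⟨_, ⟨e, rfl⟩, (hz0 e).2 fun i => dK_ne_of_inj lv _ e he, fun t => ?_⟩
    rw [hdiv]
    exact prod_mem fun i _ => prod_mem fun a _ => hgood i _
  · rintro _ ⟨e, rfl⟩ hs
    have he : ∀ i, dK k lv (lv i) e ≠ 0 := (hz0 e).1 hs
    let c : Fin n × Fin m → FF k n m := fun v =>
      if Q lv e v then wwP k lv e v ^ (p ^ r v.1) else wwP k lv e v
    have hc1 : ∀ v : Fin n × Fin m, Q lv e v → c v = wwP k lv e v ^ (p ^ r v.1) :=
      fun v hv => if_pos hv
    have hc2 : ∀ v : Fin n × Fin m, ¬ Q lv e v → c v = wwP k lv e v :=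
      fun v hv => if_neg hv
    have hc3 : ∀ v : Fin n × Fin m, ¬ Q lv e v → c v = UU k lv e v.1 v.2 := by
      intro v hv
      rw [hc2 v hv, wwP_not lv e v hv]
    refine ⟨Fin n × Fin m, inferInstance, c, ?_, ?_, ?_, ?_⟩
    · have h1 := (algebraicIndependent_wwP lv e he).polynomial_aeval_of_transcendental
        (f := fun v : Fin n × Fin m => if Q lv e v then
          (Polynomial.X ^ (p ^ r v.1) : Polynomial k) else Polynomial.X) ?_
      · have h2 : (fun v : Fin n × Fin m => Polynomial.aeval (wwP k lv e v)
            (if Q lv e v then (Polynomial.X ^ (p ^ r v.1) : Polynomial k)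
              else Polynomial.X)) = c := by
          funext v
          by_cases hv : Q lv e v
          · rw [if_pos hv, map_pow, Polynomial.aeval_X, hc1 v hv]
          · rw [if_neg hv, Polynomial.aeval_X, hc2 v hv]
        rw [h2] at h1
        exact h1
      · intro v
        by_cases hv : Q lv e v
        · rw [if_pos hv]
          exact (Polynomial.transcendental_X k).pow (pow_pos hp.out.pos _)
        · rw [if_neg hv]
          exact Polynomial.transcendental_X k
    · intro a
      exact algebraMap_memP lv r e he c hc1 hc2 a.2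
    · intro t
      rw [hdiv]
      refine Subalgebra.prod_mem _ fun i _ => Subalgebra.prod_mem _ fun a _ => ?_
      rw [dK_div lv e he (lv i) (t i a), mul_div_cancel_left₀ _ (he i)]
      exact det_mem_sub (Algebra.adjoin k (Set.range c)).toSubring _ fun x y =>
        UU_mem_adjoin lv e he c hc3 _ _
    · have hU : ∀ i j, UU k lv e i j ∈ Algebra.adjoin k (Set.range g ∪
          Set.range fun t => g (zP k n m lv r R hR t) / g (zP k n m lv r R hR fun _ _ => e)) := by
        intro i j
        rw [UU_eq lv e i j (he i)]
        apply Algebra.subset_adjoin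
        right
        refine ⟨fun i' a => if i' = i ∧ a = ⟨0, hq⟩ then Function.update e i j else e, ?_⟩
        change g _ / g _ = _
        rw [hdiv, Finset.prod_eq_single i]
        · rw [Finset.prod_eq_single (⟨0, hq⟩ : Fin (p ^ R))]
          · rw [if_pos ⟨rfl, rfl⟩]
          · intro a _ ha
            rw [if_neg (fun h => ha h.2), div_self (he i)]
          · intro h
            exact absurd (Finset.mem_univ _) h
        · intro i' _ hi'
          apply Finset.prod_eq_one
          intro a _
          rw [if_neg (fun h => hi' h.1), div_self (he i')]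
        · intro h
          exact absurd (Finset.mem_univ _) h
      intro v
      by_cases hv : Q lv e v
      · obtain ⟨l, hl, hl2⟩ := hv
        have h2 : v = (v.1, e l) := Prod.ext rfl hl2.symm
        have h4 : c v = (SS k lv e)⁻¹ v.1 l ^ (p ^ r v.1) := by
          rw [hc1 v ⟨l, hl, hl2⟩, (congrArg (wwP k lv e) h2).trans (wwP_T lv e he _ _ hl)]
        rw [h4, TT_eq lv e he, sum_pow_char_pow]
        refine Subalgebra.sum_mem _ fun j _ => ?_
        rw [mul_pow]
        refine Subalgebra.mul_mem _ ?_ (Subalgebra.pow_mem _ ?_ _)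
        · apply Algebra.subset_adjoin
          left
          refine ⟨⟨X (v.1, e j) ^ (p ^ r v.1), pow_memP lv r (v.1, e j)⟩, ?_⟩
          change algebraMap (MvPolynomial (Fin n × Fin m) k) (FF k n m)
            (X (v.1, e j) ^ (p ^ r v.1)) = _
          rw [map_pow]
          rfl
        · rw [Matrix.adjugate_apply]
          refine det_mem_sub (Algebra.adjoin k (Set.range g ∪
            Set.range fun t => g (zP k n m lv r R hR t) /
              g (zP k n m lv r R hR fun _ _ => e))).toSubring _ fun x y => ?_
          by_cases hx : x = l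
          · subst hx
            rw [Matrix.updateRow_self, Pi.single_apply]
            split_ifs
            · exact Subring.one_mem _
            · exact Subring.zero_mem _
          · rw [Matrix.updateRow_ne hx]
            exact hU _ _
      · rw [hc3 v hv]
        exact hU _ _

end Pool.Agent.Y212.Pk
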