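import Pool.Agent.Y212.Fk.Top

set_option autoImplicit false
set_option linter.unusedSectionVars false

open MvPolynomial Matrix

namespace Pool.Agent.Y212.Pk

open Pool.Agent.Y212.Fk

section abs

variable {S : Type*} [CommRing S] (I : Ideal S) {ι : Type*}

lemma det_sub_mem [Fintype ι] [DecidableEq ι] (M N : Matrix ι ι S)
    (h : ∀ i j, M i j - N i j ∈ I) : M.det - N.det ∈ I := by
  rw [← Ideal.Quotient.eq, RingHom.map_det, RingHom.map_det]
  congr 1
  ext1 i j
  exact Ideal.Quotient.eq.2 (h i j)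

lemma prod_sub_mem (s : Finset ι) (a b : ι → S) (h : ∀ i ∈ s, a i - b i ∈ I) :
    ∏ i ∈ s, a i - ∏ i ∈ s, b i ∈ I := by
  rw [← Ideal.Quotient.eq, map_prod, map_prod]
  exact Finset.prod_congr rfl fun i hi => Ideal.Quotient.eq.2 (h i hi)

end abs

variable (k : Type*) [Field k] (n m : ℕ) (lv : Fin n → ℕ)

/-- The ideal of the infinitesimal subgroup scheme of the parabolic subgroup. -/
noncomputable def frobP (q : Fin n → ℕ) :
    Ideal (MvPolynomial (Fin n × Fin n) (MvPolynomial (Fin n × Fin m) k)) :=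
  Ideal.span ((Set.range fun u => X u ^ q u.1 - if u.1 = u.2 then 1 else 0) ∪
    ((fun u => X u) '' {u | lv u.2 < lv u.1}))

/-- The algebra of invariants. -/
noncomputable def InvP (q : Fin n → ℕ) : Subalgebra k (MvPolynomial (Fin n × Fin m) k) where
  carrier := {f | coact k n m f - C f ∈ frobP k n m lv q}
  mul_mem' := by
    intro a b ha hb
    have h : coact k n m (a * b) - C (a * b) =
        coact k n m a * (coact k n m b - C b) + C b * (coact k n m a - C a) := by
      rw [map_mul, map_mul]; ring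
    change coact k n m (a * b) - C (a * b) ∈ frobP k n m lv q
    rw [h]
    exact Ideal.add_mem _ (Ideal.mul_mem_left _ _ hb) (Ideal.mul_mem_left _ _ ha)
  add_mem' := by
    intro a b ha hb
    have h : coact k n m (a + b) - C (a + b) =
        (coact k n m a - C a) + (coact k n m b - C b) := by
      rw [map_add, map_add]; ring
    change coact k n m (a + b) - C (a + b) ∈ frobP k n m lv q
    rw [h]
    exact Ideal.add_mem _ ha hb
  algebraMap_mem' := by
    intro a
    change coact k n m (algebraMap _ _ a) - C (algebraMap _ _ a) ∈ frobP k n m lv q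
    rw [AlgHom.commutes]
    have h : (algebraMap k (MvPolynomial (Fin n × Fin n) (MvPolynomial (Fin n × Fin m) k))) a =
      C (algebraMap k (MvPolynomial (Fin n × Fin m) k) a) := rfl
    rw [h, sub_self]
    exact Ideal.zero_mem _

variable {k n m}

lemma mem_InvP {q : Fin n → ℕ} {f : MvPolynomial (Fin n × Fin m) k} :
    f ∈ InvP k n m lv q ↔ coact k n m f - C f ∈ frobP k n m lv q := Iff.rfl

/-- The rows of level at least `L`. -/
abbrev Rw (L : ℕ) := {l : Fin n // L ≤ lv l}

/-- The minors of level `L`. -/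
noncomputable def mn (k : Type*) [Field k] {n m : ℕ} (lv : Fin n → ℕ) (L : ℕ)
    (e : Fin n → Fin m) : MvPolynomial (Fin n × Fin m) k :=
  ((gen k n m).submatrix (Subtype.val : Rw lv L → Fin n) fun l => e l.1).det

/-- The diagonal blocks of the generic group element. -/
noncomputable def gL (k : Type*) [Field k] (n m : ℕ) (lv : Fin n → ℕ) (L : ℕ) :
    Matrix (Rw lv L) (Rw lv L)
      (MvPolynomial (Fin n × Fin n) (MvPolynomial (Fin n × Fin m) k)) :=
  Matrix.of fun i j => X (i.1, j.1)

lemma coact_mn (q : Fin n → ℕ) (L : ℕ) (e : Fin n → Fin m) :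
    coact k n m (mn k lv L e) - (gL k n m lv L).det * C (mn k lv L e) ∈
      frobP k n m lv q := by
  rw [mn, AlgHom.map_det, RingHom.map_det, ← det_mul]
  apply det_sub_mem
  intro i j
  have h1 : (coact k n m).mapMatrix ((gen k n m).submatrix
      (Subtype.val : Rw lv L → Fin n) fun l => e l.1) i j =
      ∑ l : Fin n, X (i.1, l) * C (X (l, e j.1)) := by
    simp [coact, gen]
  have h2 : ((gL k n m lv L) * (C : MvPolynomial (Fin n × Fin m) k →+*
      MvPolynomial (Fin n × Fin n) (MvPolynomial (Fin n × Fin m) k)).mapMatrix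
      ((gen k n m).submatrix (Subtype.val : Rw lv L → Fin n) fun l => e l.1)) i j =
      ∑ l : Rw lv L, X (i.1, l.1) * C (X (l.1, e j.1)) := by
    simp [Matrix.mul_apply, gL, gen]
  rw [h1, h2]
  have h3 : ∑ l : Rw lv L, (X (i.1, l.1) * C (X (l.1, e j.1)) :
      MvPolynomial (Fin n × Fin n) (MvPolynomial (Fin n × Fin m) k)) =
      ∑ l ∈ Finset.univ.filter (fun l => L ≤ lv l), X (i.1, l) * C (X (l, e j.1)) :=
    (Finset.sum_subtype (Finset.univ.filter (fun l => L ≤ lv l)) (p := fun l => L ≤ lv l)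
      (fun x => by simp) (fun l => (X (i.1, l) * C (X (l, e j.1)) :
      MvPolynomial (Fin n × Fin n) (MvPolynomial (Fin n × Fin m) k)))).symm
  rw [h3, ← Finset.sum_filter_add_sum_filter_not Finset.univ (fun l => L ≤ lv l),
    add_sub_cancel_left]
  refine Ideal.sum_mem _ fun l hl => ?_
  refine Ideal.mul_mem_right _ _ (Ideal.subset_span (Or.inr ⟨(i.1, l), ?_, rfl⟩))
  have h4 : ¬ L ≤ lv l := (Finset.mem_filter.1 hl).2
  have h5 := i.2
  change lv l < lv i.1
  omega

section char

variable {p : ℕ} [hp : Fact p.Prime] [CharP k p] (r : Fin n → ℕ) (R : ℕ) (hR : ∀ i, r i ≤ R)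

include hp

lemma pow_sub_mem (i j : Fin n) (hR : r i ≤ R) :
    (X (i, j) : MvPolynomial (Fin n × Fin n) (MvPolynomial (Fin n × Fin m) k)) ^ (p ^ R) -
      (if i = j then 1 else 0) ∈ frobP k n m lv fun i => p ^ r i := by
  obtain ⟨s, rfl⟩ := Nat.exists_eq_add_of_le hR
  have h1 : (X (i, j) : MvPolynomial (Fin n × Fin n) (MvPolynomial (Fin n × Fin m) k)) ^
      (p ^ r i) - (if i = j then 1 else 0) ∈ frobP k n m lv fun i => p ^ r i :=
    Ideal.subset_span (Or.inl ⟨(i, j), rfl⟩)
  have h2 : (if i = j then (1 : MvPolynomial (Fin n × Fin n) (MvPolynomial (Fin n × Fin m) k))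
      else 0) = (if i = j then 1 else 0) ^ (p ^ s) := by
    have : p ^ s ≠ 0 := (pow_pos hp.out.pos s).ne'
    split_ifs
    · simp
    · exact (zero_pow this).symm
  rw [h2, pow_add, pow_mul, ← sub_pow_char_pow]
  exact Ideal.pow_mem_of_mem _ h1 _ (pow_pos hp.out.pos s)

include hR in
lemma det_gL_pow (L : ℕ) :
    (gL k n m lv L).det ^ (p ^ R) - 1 ∈ frobP k n m lv fun i => p ^ r i := by
  rw [← iterateFrobenius_def, RingHom.map_det]
  rw [← Matrix.det_one (n := Rw lv L)]
  apply det_sub_mem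
  intro i j
  rw [RingHom.mapMatrix_apply, Matrix.map_apply, iterateFrobenius_def, Matrix.one_apply]
  have h := pow_sub_mem (k := k) (m := m) (p := p) lv r R i.1 j.1 (hR _)
  simpa only [gL, Matrix.of_apply, Subtype.ext_iff] using h

include hR in
lemma prod_mn_mem (t : Fin n → Fin (p ^ R) → Fin n → Fin m) :
    ∏ i, ∏ a, mn k lv (lv i) (t i a) ∈ InvP k n m lv fun i => p ^ r i := by
  rw [mem_InvP, map_prod, map_prod]
  apply prod_sub_mem
  intro i _
  rw [map_prod, map_prod]
  have h1 : ∏ a, coact k n m (mn k lv (lv i) (t i a)) -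
      ∏ a, ((gL k n m lv (lv i)).det * C (mn k lv (lv i) (t i a))) ∈
      frobP k n m lv fun i => p ^ r i :=
    prod_sub_mem _ _ _ _ fun a _ => coact_mn lv _ _ _
  have h2 : ∏ a, ((gL k n m lv (lv i)).det * C (mn k lv (lv i) (t i a))) -
      ∏ a, C (mn k lv (lv i) (t i a)) =
      (∏ a, C (mn k lv (lv i) (t i a))) * ((gL k n m lv (lv i)).det ^ (p ^ R) - 1) := by
    rw [Finset.prod_mul_distrib, Finset.prod_const, Finset.card_univ, Fintype.card_fin]
    ring
  have h3 := Ideal.add_mem _ h1 (h2 ▸ Ideal.mul_mem_left _ _ (det_gL_pow lv r R hR (lv i)) :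
    ∏ a, ((gL k n m lv (lv i)).det * C (mn k lv (lv i) (t i a))) -
      ∏ a, C (mn k lv (lv i) (t i a)) ∈ frobP k n m lv fun i => p ^ r i)
  rwa [sub_add_sub_cancel] at h3

lemma pow_memP (u : Fin n × Fin m) :
    (X u : MvPolynomial (Fin n × Fin m) k) ^ (p ^ r u.1) ∈
      InvP k n m lv fun i => p ^ r i := by
  rw [mem_InvP, map_pow, map_pow]
  have h1 : coact k n m (X u) = ∑ l, X (u.1, l) * C (X (l, u.2)) := by
    simp [coact]
  have h2 : (C (X u) : MvPolynomial (Fin n × Fin n) (MvPolynomial (Fin n × Fin m) k))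
      ^ (p ^ r u.1) = ∑ l, (if u.1 = l then 1 else 0) * C (X (l, u.2)) ^ (p ^ r u.1) := by
    simp
  rw [h1, sum_pow_char_pow, h2, ← Finset.sum_sub_distrib]
  refine Ideal.sum_mem _ fun l _ => ?_
  rw [mul_pow, ← sub_mul]
  exact Ideal.mul_mem_right _ _ (Ideal.subset_span (Or.inl ⟨(u.1, l), rfl⟩))

end char

end Pool.Agent.Y212.Pk
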