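import Pool.Agent.Y212.Pk.Bas

set_option autoImplicit false
set_option linter.unusedSectionVars false

open MvPolynomial Matrix

universe u

namespace Pool.Agent.Y212.Pk

open Pool.Agent.Y212.Fk

variable {k : Type u} [Field k] {n m : ℕ} (lv : Fin n → ℕ)

/-- The block of the generic matrix with the rows of level at least `L` and the columns `e`. -/
noncomputable def XL (k : Type u) [Field k] {n m : ℕ} (lv : Fin n → ℕ) (L : ℕ)
    (e : Fin n → Fin m) : Matrix (Rw lv L) (Rw lv L) (FF k n m) :=
  (XK k n m).submatrix (Subtype.val : Rw lv L → Fin n) fun l => e l.1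

/-- The minors over the function field. -/
noncomputable def dK (k : Type u) [Field k] {n m : ℕ} (lv : Fin n → ℕ) (L : ℕ)
    (e : Fin n → Fin m) : FF k n m := (XL k lv L e).det

lemma dK_eq (L : ℕ) (e : Fin n → Fin m) :
    dK k lv L e = algebraMap _ (FF k n m) (mn k lv L e) := by
  rw [mn, RingHom.map_det]
  rfl

lemma dK_congr (L : ℕ) (e e' : Fin n → Fin m) (h : ∀ l, L ≤ lv l → e l = e' l) :
    dK k lv L e = dK k lv L e' := by
  rw [dK, dK]
  congr 1
  ext1 i j
  simp only [XL, Matrix.submatrix_apply]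
  rw [h j.1 j.2]

/-- The block triangular matrix with `SS * X = UU`. -/
noncomputable def SS (k : Type u) [Field k] {n m : ℕ} (lv : Fin n → ℕ) (e : Fin n → Fin m) :
    Matrix (Fin n) (Fin n) (FF k n m) :=
  Matrix.of fun i l => if h : lv i ≤ lv l then (XL k lv (lv i) e)⁻¹ ⟨i, le_rfl⟩ ⟨l, h⟩ else 0

/-- The reduced matrix. -/
noncomputable def UU (k : Type u) [Field k] {n m : ℕ} (lv : Fin n → ℕ) (e : Fin n → Fin m) :
    Matrix (Fin n) (Fin m) (FF k n m) := SS k lv e * XK k n m

lemma sum_dite {K : Type*} [Field K] (i : Fin n) (f : Rw lv (lv i) → K) (x : Fin n → K) :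
    ∑ l, (if h : lv i ≤ lv l then f ⟨l, h⟩ else 0) * x l = ∑ l : Rw lv (lv i), f l * x l.1 := by
  have h1 : ∑ l : Rw lv (lv i), f l * x l.1 =
      ∑ l : Rw lv (lv i), (if h : lv i ≤ lv l.1 then f ⟨l.1, h⟩ else 0) * x l.1 := by
    apply Finset.sum_congr rfl
    intro l _
    rw [dif_pos l.2]
  have h2 := Finset.sum_subtype (Finset.univ.filter (fun l => lv i ≤ lv l))
    (p := fun l => lv i ≤ lv l) (F := inferInstance) (fun x => by simp)
    (fun l => (if h : lv i ≤ lv l then f ⟨l, h⟩ else 0) * x l)
  rw [h1, ← h2]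
  symm
  apply Finset.sum_subset (Finset.filter_subset _ _)
  intro l _ hl
  have h3 : ¬ lv i ≤ lv l := by simpa using hl
  rw [dif_neg h3, zero_mul]

lemma UU_eq (e : Fin n → Fin m) (i : Fin n) (j : Fin m) (he : dK k lv (lv i) e ≠ 0) :
    UU k lv e i j = dK k lv (lv i) (Function.update e i j) / dK k lv (lv i) e := by
  have hu : IsUnit (XL k lv (lv i) e).det := IsUnit.mk0 _ he
  have h0 : UU k lv e i j =
      ((XL k lv (lv i) e)⁻¹ *ᵥ (fun a : Rw lv (lv i) => XK k n m a.1 j)) ⟨i, le_rfl⟩ := by
    rw [UU, Matrix.mul_apply]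
    simp only [SS, Matrix.of_apply]
    rw [sum_dite lv i (fun l => (XL k lv (lv i) e)⁻¹ ⟨i, le_rfl⟩ l)]
    rfl
  have h2 : XL k lv (lv i) (Function.update e i j) =
      (XL k lv (lv i) e).updateCol ⟨i, le_rfl⟩ (fun a => XK k n m a.1 j) := by
    ext1 a b
    by_cases hb : b = ⟨i, le_rfl⟩
    · subst hb
      simp [XL]
    · have hb' : b.1 ≠ i := fun h => hb (Subtype.ext h)
      simp [Matrix.updateCol_ne hb, XL, Function.update_of_ne hb']
  rw [eq_div_iff he, h0, dK, dK, h2, ← Matrix.cramer_apply, Matrix.inv_def, Matrix.smul_mulVec,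
    ← Matrix.cramer_eq_adjugate_mulVec, Pi.smul_apply, smul_eq_mul]
  have h3 := Ring.inverse_mul_cancel _ hu
  calc _ = (Ring.inverse (XL k lv (lv i) e).det * (XL k lv (lv i) e).det) *
        (XL k lv (lv i) e).cramer (fun a => XK k n m a.1 j) ⟨i, le_rfl⟩ := by ring
    _ = _ := by rw [h3, one_mul]

section fix

variable (e : Fin n → Fin m) (he : ∀ i, dK k lv (lv i) e ≠ 0)

include he

lemma e_injP : Function.Injective e := by
  intro a b hab
  by_contra hne
  rcases le_total (lv a) (lv b) with h | h
  · apply he a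
    rw [dK]
    apply Matrix.det_zero_of_column_eq (i := (⟨a, le_rfl⟩ : Rw lv (lv a))) (j := ⟨b, h⟩)
      (fun h' => hne (congrArg Subtype.val h'))
    intro i
    simp [XL, hab]
  · apply he b
    rw [dK]
    apply Matrix.det_zero_of_column_eq (i := (⟨a, h⟩ : Rw lv (lv b))) (j := ⟨b, le_rfl⟩)
      (fun h' => hne (congrArg Subtype.val h'))
    intro i
    simp [XL, hab]

lemma UU_e (i l : Fin n) (h : lv i ≤ lv l) : UU k lv e i (e l) = if i = l then 1 else 0 := by
  rw [UU_eq lv e i (e l) (he i)]
  split_ifs with hil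
  · subst hil
    rw [Function.update_eq_self, div_self (he i)]
  · have h1 : dK k lv (lv i) (Function.update e i (e l)) = 0 := by
      rw [dK]
      apply Matrix.det_zero_of_column_eq (i := (⟨i, le_rfl⟩ : Rw lv (lv i))) (j := ⟨l, h⟩)
        (fun h' => hil (congrArg Subtype.val h'))
      intro a
      simp [XL, Function.update_of_ne (Ne.symm hil)]
    rw [h1, zero_div]

/-- A block lower unitriangular matrix has determinant one. -/
lemma det_UU_sub (L : ℕ) :
    ((UU k lv e).submatrix (Subtype.val : Rw lv L → Fin n) fun l => e l.1).det = 1 := by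
  have hb : BlockTriangular ((UU k lv e).submatrix (Subtype.val : Rw lv L → Fin n)
      fun l => e l.1) (fun l => OrderDual.toDual (lv l.1)) := by
    intro i j hij
    have h1 : lv i.1 < lv j.1 := hij
    rw [Matrix.submatrix_apply, UU_e lv e he _ _ h1.le, if_neg]
    intro h
    rw [h] at h1
    exact lt_irrefl _ h1
  rw [hb.det]
  apply Finset.prod_eq_one
  intro a _
  have h1 : (((UU k lv e).submatrix (Subtype.val : Rw lv L → Fin n) fun l => e l.1).toSquareBlock
      (fun l => OrderDual.toDual (lv l.1)) a) = 1 := by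
    ext1 i j
    have hi : lv i.1.1 = OrderDual.ofDual a := congrArg OrderDual.ofDual i.2
    have hj : lv j.1.1 = OrderDual.ofDual a := congrArg OrderDual.ofDual j.2
    change UU k lv e i.1.1 (e j.1.1) = _
    rw [UU_e lv e he _ _ (by rw [hi, hj]), Matrix.one_apply]
    simp only [Subtype.ext_iff]
  rw [h1, Matrix.det_one]

lemma SS_mul : SS k lv e * XK k n m = UU k lv e := rfl

lemma SS_tri : BlockTriangular (SS k lv e) lv := by
  intro i j hij
  simp only [SS, Matrix.of_apply]
  rw [dif_neg (by omega)]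

lemma det_SS_mul : (SS k lv e).det * ((XK k n m).submatrix id e).det = 1 := by
  have h1 : ((UU k lv e).submatrix id e).det = 1 := by
    have hb : BlockTriangular ((UU k lv e).submatrix id e)
        (fun l => OrderDual.toDual (lv l)) := by
      intro i j hij
      have h1 : lv i < lv j := hij
      rw [Matrix.submatrix_apply]
      change UU k lv e i (e j) = 0
      rw [UU_e lv e he _ _ h1.le, if_neg]
      intro h
      rw [h] at h1
      exact lt_irrefl _ h1
    rw [hb.det]
    apply Finset.prod_eq_one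
    intro a _
    have h1 : (((UU k lv e).submatrix id e).toSquareBlock
        (fun l => OrderDual.toDual (lv l)) a) = 1 := by
      ext1 i j
      have hi : lv i.1 = OrderDual.ofDual a := congrArg OrderDual.ofDual i.2
      have hj : lv j.1 = OrderDual.ofDual a := congrArg OrderDual.ofDual j.2
      change UU k lv e i.1 (e j.1) = _
      rw [UU_e lv e he _ _ (by rw [hi, hj]), Matrix.one_apply]
      simp only [Subtype.ext_iff]
    rw [h1, Matrix.det_one]
  rw [← Matrix.det_mul, ← h1]
  congr 1

lemma isUnit_SS : IsUnit (SS k lv e).det := IsUnit.of_mul_eq_one _ (det_SS_mul lv e he)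

/-- The block triangular factor `TT` with `X = TT * UU`. -/
lemma TT_mul : (SS k lv e)⁻¹ * UU k lv e = XK k n m := by
  rw [UU, ← Matrix.mul_assoc, Matrix.nonsing_inv_mul _ (isUnit_SS lv e he), Matrix.one_mul]

lemma TT_tri : BlockTriangular (SS k lv e)⁻¹ lv := by
  have h1 : Invertible (SS k lv e) := Matrix.invertibleOfIsUnitDet _ (isUnit_SS lv e he)
  exact Matrix.blockTriangular_inv_of_blockTriangular (SS_tri lv e he)

lemma TT_zero (i l : Fin n) (h : lv l < lv i) : (SS k lv e)⁻¹ i l = 0 := TT_tri lv e he h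

lemma TT_mul_apply (i : Fin n) (j : Fin m) :
    ∑ l, (SS k lv e)⁻¹ i l * UU k lv e l j = XK k n m i j := by
  have h := congrFun (congrFun (TT_mul lv e he) i) j
  rwa [Matrix.mul_apply] at h

/-- The quotients of the minors. -/
lemma dK_div (L : ℕ) (e' : Fin n → Fin m) :
    dK k lv L e' = dK k lv L e *
      ((UU k lv e).submatrix (Subtype.val : Rw lv L → Fin n) fun l => e' l.1).det := by
  have key : ∀ e' : Fin n → Fin m, dK k lv L e' =
      ((SS k lv e)⁻¹.submatrix (Subtype.val : Rw lv L → Fin n)
        (Subtype.val : Rw lv L → Fin n)).det *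
      ((UU k lv e).submatrix (Subtype.val : Rw lv L → Fin n) fun l => e' l.1).det := by
    intro e'
    rw [← Matrix.det_mul, dK]
    congr 1
    ext1 i j
    rw [Matrix.mul_apply]
    simp only [XL, Matrix.submatrix_apply]
    rw [← TT_mul_apply lv e he]
    have h2 := Finset.sum_subtype (Finset.univ.filter (fun l => L ≤ lv l))
      (p := fun l => L ≤ lv l) (F := inferInstance) (fun x => by simp)
      (fun l => (SS k lv e)⁻¹ i.1 l * UU k lv e l (e' j.1))
    rw [← h2]
    symm
    apply Finset.sum_subset (Finset.filter_subset _ _)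
    intro l _ hl
    have h3 : ¬ L ≤ lv l := by simpa using hl
    have h4 := i.2
    rw [TT_zero lv e he _ _ (by omega), zero_mul]
  rw [key e', key e, det_UU_sub lv e he, mul_one]

end fix

end Pool.Agent.Y212.Pk
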