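import Pool.Agent.Y212.Pk.Cht

set_option autoImplicit false
set_option linter.unusedSectionVars false

open MvPolynomial Matrix Cardinal

universe u

namespace Pool.Agent.Y212.Pk

open Pool.Agent.Y212.Fk

variable {k : Type u} [Field k] {n m : ℕ} (lv : Fin n → ℕ)

/-- The positions of the coordinates of the block triangular factor. -/
def Q {n m : ℕ} (lv : Fin n → ℕ) (e : Fin n → Fin m) (v : Fin n × Fin m) : Prop :=
  ∃ l, lv v.1 ≤ lv l ∧ e l = v.2

open Classical in
/-- The coordinates of the chart without the Frobenius twist. -/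
noncomputable def wwP (k : Type u) [Field k] {n m : ℕ} (lv : Fin n → ℕ) (e : Fin n → Fin m)
    (v : Fin n × Fin m) : FF k n m :=
  if h : Q lv e v then (SS k lv e)⁻¹ v.1 h.choose else UU k lv e v.1 v.2

section fix

variable (e : Fin n → Fin m) (he : ∀ i, dK k lv (lv i) e ≠ 0)

lemma wwP_not (v : Fin n × Fin m) (hv : ¬ Q lv e v) : wwP k lv e v = UU k lv e v.1 v.2 :=
  dif_neg hv

include he

lemma wwP_T (i l : Fin n) (h : lv i ≤ lv l) : wwP k lv e (i, e l) = (SS k lv e)⁻¹ i l := by
  have hq : Q lv e (i, e l) := ⟨l, h, rfl⟩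
  have h1 : hq.choose = l := e_injP lv e he hq.choose_spec.2
  rw [wwP, dif_pos hq, h1]

lemma UU_mem_adjoin (c : Fin n × Fin m → FF k n m)
    (hc : ∀ v : Fin n × Fin m, ¬ Q lv e v → c v = UU k lv e v.1 v.2) (i : Fin n) (j : Fin m) :
    UU k lv e i j ∈ Algebra.adjoin k (Set.range c) := by
  by_cases hj : Q lv e (i, j)
  · obtain ⟨l, hl, hj⟩ := hj
    change lv i ≤ lv l at hl
    change e l = j at hj
    rw [← hj, UU_e lv e he i l hl]
    split_ifs
    · exact Subalgebra.one_mem _
    · exact Subalgebra.zero_mem _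
  · rw [← hc (i, j) hj]
    exact Algebra.subset_adjoin ⟨_, rfl⟩

lemma algebraMap_mem_adjoin_wwP (f : MvPolynomial (Fin n × Fin m) k) :
    algebraMap _ (FF k n m) f ∈ Algebra.adjoin k (Set.range (wwP k lv e)) := by
  have hW := UU_mem_adjoin lv e he (wwP k lv e) (fun v hv => wwP_not lv e v hv)
  have hX : ∀ i l, (SS k lv e)⁻¹ i l ∈ Algebra.adjoin k (Set.range (wwP k lv e)) := by
    intro i l
    rcases lt_or_ge (lv l) (lv i) with h | h
    · rw [TT_zero lv e he i l h]
      exact Subalgebra.zero_mem _
    · rw [← wwP_T lv e he i l h]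
      exact Algebra.subset_adjoin ⟨_, rfl⟩
  induction f using MvPolynomial.induction_on with
  | C a =>
    have h : algebraMap (MvPolynomial (Fin n × Fin m) k) (FF k n m) (C a) =
        algebraMap k (FF k n m) a :=
      (IsScalarTower.algebraMap_apply k (MvPolynomial (Fin n × Fin m) k) (FF k n m) a).symm
    rw [h]
    exact Subalgebra.algebraMap_mem _ _
  | add f g hf hg =>
    rw [map_add]
    exact Subalgebra.add_mem _ hf hg
  | mul_X f v hf =>
    rw [map_mul]
    refine Subalgebra.mul_mem _ hf ?_
    have h := TT_mul_apply lv e he v.1 v.2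
    rw [XK_apply] at h
    rw [← h]
    exact Subalgebra.sum_mem _ fun l _ => Subalgebra.mul_mem _ (hX _ _) (hW _ _)

lemma isAlgebraic_adjoinP :
    Algebra.IsAlgebraic (Algebra.adjoin k (Set.range (wwP k lv e))) (FF k n m) := by
  refine ⟨fun x => ?_⟩
  obtain ⟨a, b, hb, rfl⟩ := IsFractionRing.div_surjective
    (A := MvPolynomial (Fin n × Fin m) k) x
  have ha : IsAlgebraic (Algebra.adjoin k (Set.range (wwP k lv e)))
      (algebraMap (MvPolynomial (Fin n × Fin m) k) (FF k n m) a) :=
    isAlgebraic_algebraMap (A := FF k n m)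
      (⟨_, algebraMap_mem_adjoin_wwP lv e he a⟩ : Algebra.adjoin k (Set.range (wwP k lv e)))
  have hb : IsAlgebraic (Algebra.adjoin k (Set.range (wwP k lv e)))
      (algebraMap (MvPolynomial (Fin n × Fin m) k) (FF k n m) b) :=
    isAlgebraic_algebraMap (A := FF k n m)
      (⟨_, algebraMap_mem_adjoin_wwP lv e he b⟩ : Algebra.adjoin k (Set.range (wwP k lv e)))
  rw [div_eq_mul_inv]
  exact ha.mul hb.inv

lemma algebraicIndependent_wwP : AlgebraicIndependent k (wwP k lv e) := by
  have h1 := isAlgebraic_adjoinP lv e he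
  have h0 : Algebra.IsAlgebraic (MvPolynomial (Fin n × Fin m) k) (FF k n m) :=
    IsLocalization.isAlgebraic _ (nonZeroDivisors (MvPolynomial (Fin n × Fin m) k))
  have h2 : IsTranscendenceBasis k
      (fun v : Fin n × Fin m => algebraMap (MvPolynomial (Fin n × Fin m) k) (FF k n m) (X v)) :=
    (IsTranscendenceBasis.mvPolynomial (Fin n × Fin m) k).algebraMap_comp (A := FF k n m)
  have h3 := h2.lift_cardinalMk_eq_trdeg
  exact (Algebra.IsAlgebraic.isTranscendenceBasis_of_lift_le_trdeg_of_finite k (wwP k lv e)
    h3.le).1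

end fix

/-- The point with the coordinates `wwP`. -/
noncomputable def psiP (k : Type u) [Field k] {n m : ℕ} (lv : Fin n → ℕ) (e : Fin n → Fin m) :
    MvPolynomial (Fin n × Fin m) k →ₐ[k] FF k n m := aeval (wwP k lv e)

open Classical in
/-- The polynomial map `(T, U) ↦ T U`. -/
noncomputable def thetaP (k : Type u) [Field k] {n m : ℕ} (lv : Fin n → ℕ) (e : Fin n → Fin m) :
    MvPolynomial (Fin n × Fin m) k →ₐ[k] MvPolynomial (Fin n × Fin m) k :=
  aeval fun v => ∑ l, (if lv v.1 ≤ lv l then X (v.1, e l) else 0) *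
    (if Q lv e (l, v.2) then (if e l = v.2 then 1 else 0) else X (l, v.2))

/-- The point with the coordinates `ww + T` at `v` and `ww` elsewhere. -/
noncomputable def chiP (k : Type u) [Field k] {n m : ℕ} (lv : Fin n → ℕ) (e : Fin n → Fin m)
    (v : Fin n × Fin m) :
    MvPolynomial (Fin n × Fin m) k →ₐ[k] Polynomial (FF k n m) :=
  aeval fun u => Polynomial.C (wwP k lv e u) + if u = v then Polynomial.X else 0

lemma psiP_X (e : Fin n → Fin m) (v : Fin n × Fin m) : psiP k lv e (X v) = wwP k lv e v := by
  simp [psiP]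

lemma chiP_eq (e : Fin n → Fin m) (v : Fin n × Fin m) (f : MvPolynomial (Fin n × Fin m) k) :
    chiP k lv e v f = Polynomial.mapAlgHom (psiP k lv e) (shift v f) := by
  have h : chiP k lv e v = (Polynomial.mapAlgHom (psiP k lv e)).comp (shift v) := by
    apply MvPolynomial.algHom_ext
    intro u
    rw [AlgHom.comp_apply, chiP, aeval_X, shift, aeval_X, map_add]
    congr 1
    · simp [psiP_X]
    · split_ifs <;> simp
  rw [h]
  rfl

/-- The one parameter family of points of the Frobenius kernel. -/
noncomputable def evP (k : Type u) [Field k] {n m : ℕ} (lv : Fin n → ℕ) (e : Fin n → Fin m)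
    (i0 l0 : Fin n) :
    MvPolynomial (Fin n × Fin n) (MvPolynomial (Fin n × Fin m) k) →+*
      Polynomial (FF k n m) :=
  eval₂Hom ((Polynomial.C).comp (algebraMap _ (FF k n m))) fun u =>
    Polynomial.C (if u.1 = u.2 then 1 else 0) + Polynomial.X *
      Polynomial.C (if u.1 = i0 then SS k lv e l0 u.2 else 0)

section fix2

variable (e : Fin n → Fin m) (he : ∀ i, dK k lv (lv i) e ≠ 0)

include he

lemma psiP_inj : Function.Injective (psiP k lv e) := algebraicIndependent_wwP lv e he

lemma psiP_theta (f : MvPolynomial (Fin n × Fin m) k) :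
    psiP k lv e (thetaP k lv e f) = algebraMap _ (FF k n m) f := by
  classical
  have h : (psiP k lv e).comp (thetaP k lv e) =
      (IsScalarTower.toAlgHom k (MvPolynomial (Fin n × Fin m) k) (FF k n m)) := by
    apply MvPolynomial.algHom_ext
    intro v
    rw [AlgHom.comp_apply, thetaP, aeval_X, map_sum]
    have h1 : ∀ l, psiP k lv e ((if lv v.1 ≤ lv l then X (v.1, e l) else 0) *
        (if Q lv e (l, v.2) then (if e l = v.2 then 1 else 0) else X (l, v.2))) =
        (SS k lv e)⁻¹ v.1 l * UU k lv e l v.2 := by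
      intro l
      rw [map_mul]
      congr 1
      · split_ifs with h
        · rw [psiP_X, wwP_T lv e he _ _ h]
        · rw [map_zero, TT_zero lv e he _ _ (by omega)]
      · by_cases hq : Q lv e (l, v.2)
        · rw [if_pos hq]
          obtain ⟨l', hl', hv⟩ := hq
          change lv l ≤ lv l' at hl'
          change e l' = v.2 at hv
          rw [← hv, UU_e lv e he _ _ hl']
          by_cases hll : l = l'
          · subst hll
            simp
          · have h5 : e l ≠ e l' := fun h => hll (e_injP lv e he h)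
            rw [if_neg h5, if_neg hll, map_zero]
        · rw [if_neg hq, psiP_X, wwP_not lv e _ hq]
    rw [Finset.sum_congr rfl fun l _ => h1 l, TT_mul_apply lv e he]
    rfl
  exact DFunLike.congr_fun h f

lemma evP_coact (i0 l0 : Fin n) (h0 : lv i0 ≤ lv l0) (f : MvPolynomial (Fin n × Fin m) k) :
    evP k lv e i0 l0 (coact k n m f) = chiP k lv e (i0, e l0) (thetaP k lv e f) := by
  classical
  have hinj := e_injP lv e he
  have h : (evP k lv e i0 l0).comp (coact k n m).toRingHom =
      ((chiP k lv e (i0, e l0)).comp (thetaP k lv e)).toRingHom := by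
    apply MvPolynomial.ringHom_ext
    · intro a
      have h1 : coact k n m (C a) = C (C a) := by
        have := (coact k n m).commutes a
        exact this
      have h2 : thetaP k lv e (C a) = C a := (thetaP k lv e).commutes a
      change evP k lv e i0 l0 (coact k n m (C a)) = chiP k lv e (i0, e l0) (thetaP k lv e (C a))
      rw [h1, h2]
      have h3 : chiP k lv e (i0, e l0) (C a) = algebraMap k _ a :=
        (chiP k lv e (i0, e l0)).commutes a
      rw [h3]
      simp only [evP, coe_eval₂Hom, eval₂_C, RingHom.comp_apply]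
      rfl
    · intro v
      change evP k lv e i0 l0 (coact k n m (X v)) = chiP k lv e (i0, e l0) (thetaP k lv e (X v))
      have h1 : coact k n m (X v) = ∑ l, X (v.1, l) * C (X (l, v.2)) := by simp [coact]
      have h2 : ∀ l, evP k lv e i0 l0 (X (v.1, l) * C (X (l, v.2))) =
          Polynomial.C ((if v.1 = l then 1 else 0) * XK k n m l v.2) + Polynomial.X *
      Polynomial.C ((if v.1 = i0 then SS k lv e l0 l else 0) * XK k n m l v.2) := by
        intro l
        rw [evP, map_mul]
        simp only [coe_eval₂Hom, eval₂_C, eval₂_X, RingHom.comp_apply, ← XK_apply]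
        simp only [map_mul]
        ring
      have h3 : evP k lv e i0 l0 (coact k n m (X v)) = Polynomial.C (XK k n m v.1 v.2) +
          Polynomial.X * Polynomial.C (if v.1 = i0 then UU k lv e l0 v.2 else 0) := by
        rw [h1, map_sum, Finset.sum_congr rfl fun l _ => h2 l, Finset.sum_add_distrib,
          ← map_sum, ← Finset.mul_sum, ← map_sum]
        congr 1
        · congr 1
          simp
        · congr 2
          split_ifs with hv
          · rw [UU, Matrix.mul_apply]
          · simp
      rw [h3, thetaP, aeval_X, map_sum]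
      have h5 : ∀ l, chiP k lv e (i0, e l0) ((if lv v.1 ≤ lv l then X (v.1, e l) else 0) *
          (if Q lv e (l, v.2) then (if e l = v.2 then 1 else 0) else X (l, v.2))) =
          Polynomial.C ((SS k lv e)⁻¹ v.1 l * UU k lv e l v.2) +
            (if v.1 = i0 ∧ l = l0 then Polynomial.X else 0) *
              Polynomial.C (UU k lv e l v.2) := by
        intro l
        have h6 : chiP k lv e (i0, e l0) (if lv v.1 ≤ lv l then X (v.1, e l) else 0) =
            Polynomial.C ((SS k lv e)⁻¹ v.1 l) +
              (if v.1 = i0 ∧ l = l0 then Polynomial.X else 0) := by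
          by_cases hl : lv v.1 ≤ lv l
          · rw [if_pos hl, chiP, aeval_X, wwP_T lv e he _ _ hl]
            congr 1
            by_cases hv : v.1 = i0 ∧ l = l0
            · rw [if_pos hv, if_pos (Prod.ext hv.1 (congrArg e hv.2))]
            · rw [if_neg hv, if_neg]
              intro h
              exact hv ⟨congrArg Prod.fst h, hinj (congrArg Prod.snd h)⟩
          · rw [if_neg hl, map_zero, TT_zero lv e he _ _ (by omega), if_neg]
            · simp
            · rintro ⟨h7, h8⟩
              rw [h7, h8] at hl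
              exact hl h0
        have h7 : chiP k lv e (i0, e l0)
            (if Q lv e (l, v.2) then (if e l = v.2 then 1 else 0) else X (l, v.2)) =
            Polynomial.C (UU k lv e l v.2) := by
          by_cases hq : Q lv e (l, v.2)
          · rw [if_pos hq]
            obtain ⟨l', hl', hv⟩ := hq
            change lv l ≤ lv l' at hl'
            change e l' = v.2 at hv
            rw [← hv, UU_e lv e he _ _ hl']
            by_cases hll : l = l'
            · subst hll
              simp
            · have h5 : e l ≠ e l' := fun h => hll (hinj h)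
              rw [if_neg h5, if_neg hll, map_zero, map_zero]
          · have h8 : ((l, v.2) : Fin n × Fin m) ≠ (i0, e l0) := by
              intro h
              apply hq
              refine ⟨l0, ?_, (congrArg Prod.snd h).symm⟩
              have h9 : l = i0 := congrArg Prod.fst h
              rw [h9]
              exact h0
            rw [if_neg hq, chiP, aeval_X, wwP_not lv e _ hq, if_neg h8, add_zero]
        rw [map_mul, h6, h7, add_mul, map_mul]
      rw [Finset.sum_congr rfl fun l _ => h5 l, Finset.sum_add_distrib,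
        ← map_sum, TT_mul_apply lv e he]
      congr 1
      by_cases hv1 : v.1 = i0
      · rw [if_pos hv1, Finset.sum_eq_single l0]
        · rw [if_pos ⟨hv1, rfl⟩]
        · intro l _ hl
          rw [if_neg (fun h => hl h.2), zero_mul]
        · intro h
          exact absurd (Finset.mem_univ _) h
      · rw [if_neg hv1, map_zero, mul_zero]
        symm
        apply Finset.sum_eq_zero
        intro l _
        rw [if_neg (fun h => hv1 h.1), zero_mul]
  exact DFunLike.congr_fun h f

lemma evP_C (i0 l0 : Fin n) (f : MvPolynomial (Fin n × Fin m) k) :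
    evP k lv e i0 l0 (C f) = Polynomial.C (psiP k lv e (thetaP k lv e f)) := by
  rw [psiP_theta lv e he]
  simp [evP]

end fix2

/-- Polynomials whose exponents at the variables satisfying `P` are divisible by `q v`. -/
lemma mem_adjoin_of_dvd' {σ : Type*} (P : σ → Prop) [DecidablePred P] (q : σ → ℕ)
    (F : MvPolynomial σ k) (h : ∀ d, coeff d F ≠ 0 → ∀ v, P v → q v ∣ d v) :
    F ∈ Algebra.adjoin k (Set.range fun v => (if P v then X v ^ q v else X v :
      MvPolynomial σ k)) := by
  rw [← F.support_sum_monomial_coeff]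
  refine Subalgebra.sum_mem _ fun d hd => ?_
  rw [monomial_eq]
  refine Subalgebra.mul_mem _ (Subalgebra.algebraMap_mem _ _) ?_
  refine Subalgebra.prod_mem _ fun v _ => ?_
  by_cases hv : P v
  · obtain ⟨e, he⟩ := h d (mem_support_iff.1 hd) v hv
    rw [he]
    have h1 : (X v ^ q v : MvPolynomial σ k) ∈ Algebra.adjoin k (Set.range fun v =>
        (if P v then X v ^ q v else X v : MvPolynomial σ k)) := by
      apply Algebra.subset_adjoin
      exact ⟨v, if_pos hv⟩
    have h2 := Subalgebra.pow_mem _ h1 e
    rwa [← pow_mul] at h2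
  · have h1 : (X v : MvPolynomial σ k) ∈ Algebra.adjoin k (Set.range fun v =>
        (if P v then X v ^ q v else X v : MvPolynomial σ k)) := by
      apply Algebra.subset_adjoin
      exact ⟨v, if_neg hv⟩
    exact Subalgebra.pow_mem _ h1 _

section char

variable {p : ℕ} [hp : Fact p.Prime] [CharP k p] (r : Fin n → ℕ)

include hp

lemma dvd_evP (e : Fin n → Fin m) (i0 l0 : Fin n) (h0 : lv i0 ≤ lv l0)
    {f : MvPolynomial (Fin n × Fin n) (MvPolynomial (Fin n × Fin m) k)}
    (hf : f ∈ frobP k n m lv fun i => p ^ r i) :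
    Polynomial.X ^ (p ^ r i0) ∣ evP k lv e i0 l0 f := by
  have hle : (frobP k n m lv fun i => p ^ r i) ≤
      Ideal.comap (evP k lv e i0 l0) (Ideal.span {Polynomial.X ^ (p ^ r i0)}) := by
    rw [frobP, Ideal.span_le]
    have h1 : ∀ u, evP k lv e i0 l0 (X u) =
        Polynomial.C (if u.1 = u.2 then 1 else 0) + Polynomial.X *
        Polynomial.C (if u.1 = i0 then SS k lv e l0 u.2 else 0) := by
      intro u
      simp [evP]
    rintro _ (⟨u, rfl⟩ | ⟨u, hu, rfl⟩)
    · change evP k lv e i0 l0 _ ∈ Ideal.span {Polynomial.X ^ (p ^ r i0)}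
      rw [Ideal.mem_span_singleton]
      have hch : CharP (FF k n m) p := charP_of_injective_algebraMap (R := k)
        (FaithfulSMul.algebraMap_injective k (FF k n m)) p
      have h2 : evP k lv e i0 l0 (if u.1 = u.2 then 1 else 0) =
          Polynomial.C (if u.1 = u.2 then 1 else 0) := by
        split_ifs <;> simp
      rw [map_sub, map_pow, h1, h2, add_pow_char_pow, ← map_pow]
      have h3 : (if u.1 = u.2 then (1 : FF k n m) else 0) ^ (p ^ r u.1) =
          if u.1 = u.2 then 1 else 0 := by
        have : p ^ r u.1 ≠ 0 := (pow_pos hp.out.pos _).ne'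
        split_ifs
        · simp
        · exact zero_pow this
      rw [h3, add_sub_cancel_left, mul_pow]
      by_cases hu : u.1 = i0
      · rw [hu]
        exact Dvd.intro _ rfl
      · have h4 : p ^ r u.1 ≠ 0 := (pow_pos hp.out.pos _).ne'
        rw [if_neg hu, map_zero, zero_pow h4, mul_zero]
        exact dvd_zero _
    · change evP k lv e i0 l0 (X u) ∈ Ideal.span {Polynomial.X ^ (p ^ r i0)}
      have hu' : lv u.2 < lv u.1 := hu
      have h4 : u.1 ≠ u.2 := by
        intro h
        rw [h] at hu'
        exact lt_irrefl _ hu'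
      have h5 : (if u.1 = i0 then SS k lv e l0 u.2 else 0) = 0 := by
        split_ifs with h
        · simp only [SS, Matrix.of_apply]
          rw [dif_neg]
          rw [h] at hu'
          omega
        · rfl
      rw [h1, if_neg h4, h5, map_zero, mul_zero, add_zero]
      exact Ideal.zero_mem _
  have h := hle hf
  rw [Ideal.mem_comap, Ideal.mem_span_singleton] at h
  exact h

lemma coeff_shift_thetaP (e : Fin n → Fin m) (he : ∀ i, dK k lv (lv i) e ≠ 0) (i0 l0 : Fin n)
    (h0 : lv i0 ≤ lv l0) {f : MvPolynomial (Fin n × Fin m) k}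
    (hf : f ∈ InvP k n m lv fun i => p ^ r i) (s : ℕ) (hs0 : 0 < s)
    (hs : s < p ^ r i0) : (shift (i0, e l0) (thetaP k lv e f)).coeff s = 0 := by
  apply psiP_inj lv e he
  rw [map_zero]
  have h1 := dvd_evP lv r e i0 l0 h0 ((mem_InvP lv).1 hf)
  rw [map_sub, evP_coact lv e he i0 l0 h0, evP_C lv e he, chiP_eq] at h1
  have h2 := (Polynomial.X_pow_dvd_iff.1 h1) s hs
  rw [Polynomial.coeff_sub, Polynomial.coeff_C_of_ne_zero hs0.ne', sub_zero] at h2
  rw [← h2]
  simp

lemma algebraMap_memP (e : Fin n → Fin m) (he : ∀ i, dK k lv (lv i) e ≠ 0)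
    (c : Fin n × Fin m → FF k n m)
    (hc1 : ∀ v : Fin n × Fin m, Q lv e v → c v = wwP k lv e v ^ (p ^ r v.1))
    (hc2 : ∀ v : Fin n × Fin m, ¬ Q lv e v → c v = wwP k lv e v)
    {f : MvPolynomial (Fin n × Fin m) k} (hf : f ∈ InvP k n m lv fun i => p ^ r i) :
    algebraMap _ (FF k n m) f ∈ Algebra.adjoin k (Set.range c) := by
  classical
  rw [← psiP_theta lv e he]
  have h1 : thetaP k lv e f ∈ Algebra.adjoin k (Set.range fun v : Fin n × Fin m =>
      (if Q lv e v then X v ^ (p ^ r v.1) else X v : MvPolynomial (Fin n × Fin m) k)) := by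
    apply mem_adjoin_of_dvd' (fun v : Fin n × Fin m => Q lv e v) (fun v => p ^ r v.1)
    intro d hd v hv
    obtain ⟨l, hl, hl2⟩ := hv
    have h2 : v = (v.1, e l) := Prod.ext rfl hl2.symm
    have h4 := dvd_of_shift hp.out (r := r v.1) (v.1, e l) _
      (fun s hs0 hs => coeff_shift_thetaP lv r e he _ _ hl hf s hs0 hs) d hd
    rw [← h2] at h4
    exact h4
  have h3 : psiP k lv e (thetaP k lv e f) ∈ (Algebra.adjoin k
      (Set.range fun v : Fin n × Fin m => (if Q lv e v then X v ^ (p ^ r v.1) else X v :
        MvPolynomial (Fin n × Fin m) k))).map (psiP k lv e) := ⟨_, h1, rfl⟩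
  rw [AlgHom.map_adjoin] at h3
  refine Algebra.adjoin_mono ?_ h3
  rintro _ ⟨_, ⟨v, rfl⟩, rfl⟩
  refine ⟨v, ?_⟩
  by_cases hv : Q lv e v
  · simp only [if_pos hv]
    rw [map_pow, psiP_X, hc1 v hv]
  · simp only [if_neg hv]
    rw [psiP_X, hc2 v hv]

end char

end Pool.Agent.Y212.Pk
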